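import Pool.Agent.Y589.VT.Ext

/-!
# Irrational classes at which Mather's beta function is not differentiable, in every dimension `≥ 11`
-/

set_option autoImplicit false

open Filter Topology

namespace Pool.Agent.Results.MP_ce3247_an.EveryDimension

open Pool.Agent.Helper981 Pool.Agent.Y589.VT

/-- On the torus `T^n` of EVERY dimension `n ≥ 11` there are a time-periodic Tonelli Lagrangian and a
`1`-irrational class `h` (for both notions of irrationality) at which the beta function is finite and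
its tangent cone contains no line; in particular it is not differentiable in `k` directions for any
`k ≥ 1`. -/
theorem result (n : ℕ) (hn : 11 ≤ n) : ∃ (L : Phase n → ℝ) (Φ : ℝ → Phase n → Phase n),
    IsTonelli L ∧ IsELFlow L Φ ∧ ∃ h : Fin n → ℝ,
      IZ h = 1 ∧ IR h = 1 ∧ beta L Φ h ≠ ⊤ ∧ beta L Φ h ≠ ⊥ ∧
        (¬ ∃ v : Fin n → ℝ, v ≠ 0 ∧ dirDeriv (beta L Φ) h v + dirDeriv (beta L Φ) h (-v) = 0) ∧
        ∀ k : ℕ, 1 ≤ k → ¬ DiffInDirections (beta L Φ) h k := by
  obtain ⟨L, Φ, i0, hT, hE, hb, κ, hκ, hl⟩ := main n hn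
  refine ⟨L, Φ, hT, hE, Pi.single i0 om, IZ_eq i0, IR_eq i0, ?_, ?_, ?_, ?_⟩
  · rw [hb]
    exact EReal.zero_ne_top
  · rw [hb]
    exact EReal.zero_ne_bot
  · rintro ⟨v, hv, h3⟩
    exact no_line hb hκ hl hv h3
  · rintro k hk ⟨W, hW, ℓ, hℓ⟩
    have hne : W ≠ ⊥ := by
      rintro rfl
      rw [finrank_bot] at hW
      omega
    obtain ⟨v, hvW, hv⟩ := Submodule.exists_mem_ne_zero_of_ne_bot hne
    apply no_line hb hκ hl hv
    have e1 := hℓ ⟨v, hvW⟩
    have e2 := hℓ (-⟨v, hvW⟩)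
    rw [map_neg] at e2
    have e3 : (((-⟨v, hvW⟩ : W)) : Fin n → ℝ) = -v := rfl
    rw [e3] at e2
    simp only at e1
    rw [e1, e2, ← EReal.coe_add, add_neg_cancel]
    rfl

end Pool.Agent.Results.MP_ce3247_an.EveryDimension
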